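import Pool.Agent.H320R4.HS.Dim

/-!
# A counterexample to the second part of the hyperbolic analytic subspace conjecture

For the Shimura variety of `SO(J)`, where `J` is a rational form of signature `(3, 2)`, there are a
special point `o` whose Mumford-Tate group is a maximal torus, a special point `z ≠ o` of the same
component and a plane `V` in the three-dimensional tangent space at `o` which is rational for every
`Qbar`-structure stable under the stabiliser of `o` in `SO(J)(ℚ)` and contains the Harish-Chandra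
coordinate of `z`, but every Shimura subvariety through `o` which is tangent to `V` is a point.
-/

set_option autoImplicit false

namespace Pool.Agent.Results.MP_1e27bd_ag.MaximalTorusCounterexample

open Pool.Agent.H320R4.HS Matrix

theorem result :
    ∃ J : Matrix (Fin 5) (Fin 5) ℚ,
      J = !![2, 0, 3, 3, 0; 0, 2, 0, 3, 3; 3, 0, 2, 0, 3; 3, 3, 0, 2, 0; 0, 3, 3, 0, 2] ∧
      Signature32 J ∧
      ∃ o z : Vec, o ∈ cone J ∧ z ∈ cone J ∧ JoinedIn (cone J) o z ∧
        IsMaximalTorus (SO J) (MT J o) ∧ IsTorus (MT J z) ∧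
        Module.finrank ℂ (tangent J o) = 3 ∧
        ∃ (Y : Mat) (V : Submodule ℂ Mat),
          IsHarishChandra J o z Y ∧ (∀ Y', IsHarishChandra J o z Y' → Y' = Y) ∧ Y ≠ 0 ∧
          V ≤ tangent J o ∧ Module.finrank ℂ V = 2 ∧ Y ∈ V ∧
          (∃ L : Submodule Qbar Mat, IsStructure L (tangent J o) ∧ StabStable J o L) ∧
          (∀ L : Submodule Qbar Mat, IsStructure L (tangent J o) → StabStable J o L →
            IsRational L V) ∧
          ∀ H : Subgroup GL5, IsQSubgroup H → H ≤ SO J → HodgeIn J o H →
            tangentOf J o H ⊆ (V : Set Mat) → tangentOf J o H ⊆ {0} := by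
  refine ⟨Jm, rfl, signature_Jm, o, zpt, o_mem_cone, joined.target_mem, joined,
    isMaximalTorus_MT_o, isTorus_MT_z, finrank_tangent, Yo (1 / 2) 0 (-(w / 2)), Vp, hc,
    fun Y' h => hc_unique h, ?_, ?_, finrank_Vp, ?_,
    exists_stable, fun L h1 h2 => rational_Vp h1 h2, fun H h1 _ h2 h3 => tangent_main h1 h2 h3⟩
  · intro h
    rw [← Yo_zero] at h
    have := (Yo_inj h).1
    norm_num at this
  · intro Y hY
    obtain ⟨a, c, rfl⟩ := mem_Vp.1 hY
    exact Yo_mem _ _ _
  · exact mem_Vp.2 ⟨_, _, rfl⟩

end Pool.Agent.Results.MP_1e27bd_ag.MaximalTorusCounterexample
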